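import Pool.Agent.H72.VPermDefs

/-!
# Generalized 3x+1 permutations of every type all of whose orbits have small upper density

Let `T` be any map of the class of Q1, with data `p, t_r, u_r`, and let `S` be a set of `s` primes
`= 1 mod 8 p t_0 ... t_(p-1)`, with product `M`. Every map `T'` with the same `p`, the same
multipliers and constants `u'_r = u_r mod p t_r`, `u'_r = (t_r - p) c mod M` is in the class, and
the Legendre symbols of `x - c` modulo the primes of `S` are invariant under `T'`, so that every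
orbit of `T'` has upper density at most `2 ^ (-s)`.
-/

set_option autoImplicit false

namespace Pool.Agent.Results.MP_153093_nt.EveryType

open Pool.Agent.H72.VPerm

/-- `S` is a finite set of primes which are `1` modulo `8 p t_0 ... t_(p-1)` -/
def Good (p : ℕ) (t : ℕ → ℤ) (S : Finset ℕ) : Prop :=
  ∀ l ∈ S, l.Prime ∧ (l : ℤ) ≡ 1 [ZMOD 8 * (p * ∏ r ∈ Finset.range p, t r)]

/-! ### quadratic residues -/

theorem leg_one (l : ℕ) [Fact l.Prime] (n : ℕ) (hn : n ≠ 0) (h : l ≡ 1 [MOD 8 * n]) :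
    legendreSym l (n : ℤ) = 1 := by
  rw [jacobiSym.legendreSym.to_jacobiSym]
  obtain ⟨k, m, hm, rfl⟩ := Nat.exists_eq_two_pow_mul_odd hn
  have h8 : l ≡ 1 [MOD 8] := h.of_mul_right _
  have hm1 : l ≡ 1 [MOD m] := by
    apply h.of_dvd
    exact Dvd.intro_left (8 * 2 ^ k) (by ring)
  have hl8 : l % 8 = 1 := h8
  have hodd : Odd l := by
    rw [Nat.odd_iff]; omega
  have h2 : jacobiSym 2 l = 1 := by
    rw [jacobiSym.at_two hodd]
    have : (l : ZMod 8) = 1 := by
      have := (ZMod.natCast_eq_natCast_iff l 1 8).mpr h8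
      simpa using this
    rw [this]
    rfl
  have h3 : jacobiSym m l = 1 := by
    rw [← jacobiSym.quadratic_reciprocity_one_mod_four (a := l) (b := m) (by omega) hm]
    rw [jacobiSym.mod_left]
    have h4 : ((l : ℤ) % (m : ℤ)) = (1 : ℤ) % (m : ℤ) := by
      have := hm1
      unfold Nat.ModEq at this
      exact_mod_cast congrArg (fun z : ℕ => (z : ℤ)) this
    rw [h4, ← jacobiSym.mod_left, jacobiSym.one_left]
  push_cast
  rw [jacobiSym.mul_left, jacobiSym.pow_left, h2, h3]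
  simp

theorem half (l : ℕ) [Fact l.Prime] (hl : l ≠ 2) (e : ℤ) :
    2 * (Finset.univ.filter fun z : ZMod l => quadraticChar (ZMod l) z = e).card ≤ l := by
  have hl2 : 2 ≤ l := (Fact.out : l.Prime).two_le
  by_cases he : e = 0
  · subst he
    have h1 : (Finset.univ.filter fun z : ZMod l => quadraticChar (ZMod l) z = 0) = {0} := by
      ext z
      simp only [Finset.mem_filter, Finset.mem_univ, true_and, Finset.mem_singleton]
      exact quadraticChar_eq_zero_iff
    rw [h1, Finset.card_singleton]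
    omega
  · obtain ⟨n, hn⟩ := quadraticChar_exists_neg_one (F := ZMod l) (by
      rw [ZMod.ringChar_zmod_n]; exact hl)
    have hn0 : n ≠ 0 := by
      rintro rfl
      simp at hn
    have h1 : (Finset.univ.filter fun z : ZMod l => quadraticChar (ZMod l) z = e).card ≤
        (Finset.univ.filter fun z : ZMod l => quadraticChar (ZMod l) z = -e).card := by
      apply Finset.card_le_card_of_injOn (fun z => n * z)
      · intro z hz
        simp only [Finset.coe_filter, Finset.mem_univ, true_and, Set.mem_ofPred_eq] at hz ⊢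
        rw [map_mul, hn, hz]
        ring
      · intro z _ z' _ h
        exact mul_left_cancel₀ hn0 h
    have h2 : Disjoint (Finset.univ.filter fun z : ZMod l => quadraticChar (ZMod l) z = e)
        (Finset.univ.filter fun z : ZMod l => quadraticChar (ZMod l) z = -e) := by
      rw [Finset.disjoint_filter]
      intro z _ h3 h4
      omega
    have h3 := Finset.card_union_of_disjoint h2
    have h4 := Finset.card_le_univ ((Finset.univ.filter fun z : ZMod l =>
      quadraticChar (ZMod l) z = e) ∪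
        (Finset.univ.filter fun z : ZMod l => quadraticChar (ZMod l) z = -e))
    rw [ZMod.card] at h4
    omega

/-- residues modulo `M` with prescribed Legendre symbols at all primes of `S` -/
noncomputable def res (S : Finset ℕ) (M : ℕ) (c : ℤ) (e : ℕ → ℤ) : Finset ℕ :=
  (Finset.range M).filter fun a => ∀ l ∈ S, jacobiSym ((a : ℤ) - c) l = e l

theorem res_one (l : ℕ) (hp : l.Prime) (hl : l ≠ 2) (c : ℤ) (e : ℕ → ℤ) :
    2 * (res {l} l c e).card ≤ l := by
  have : Fact l.Prime := ⟨hp⟩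
  refine le_trans ?_ (half l hl (e l))
  apply Nat.mul_le_mul_left
  apply Finset.card_le_card_of_injOn (fun a : ℕ => (((a : ℤ) - c : ℤ) : ZMod l))
  · intro a ha
    simp only [res, Finset.coe_filter, Finset.mem_range, Finset.mem_singleton, forall_eq,
      Set.mem_ofPred_eq, Finset.mem_univ, true_and] at ha ⊢
    rw [← ha.2, ← jacobiSym.legendreSym.to_jacobiSym]
    rfl
  · intro a ha b hb h
    simp only [res, Finset.coe_filter, Finset.mem_range, Set.mem_ofPred_eq] at ha hb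
    simp only [Int.cast_sub, sub_left_inj, Int.cast_natCast] at h
    rw [ZMod.natCast_eq_natCast_iff] at h
    exact Nat.ModEq.eq_of_lt_of_lt h ha.1 hb.1

theorem jac_congr {a b : ℤ} {l : ℕ} (h : a ≡ b [ZMOD (l : ℤ)]) : jacobiSym a l = jacobiSym b l :=
  jacobiSym.mod_left' h

theorem natmod {a m l : ℕ} (h : l ∣ m) (c : ℤ) :
    ((a % m : ℕ) : ℤ) - c ≡ (a : ℤ) - c [ZMOD (l : ℤ)] := by
  apply Int.ModEq.sub_right
  push_cast
  exact (Int.mod_modEq (a : ℤ) (m : ℤ)).of_dvd (by exact_mod_cast h)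

theorem res_insert (S : Finset ℕ) (l : ℕ) (hl0 : 0 < l) (hM : 0 < ∏ q ∈ S, q)
    (hco : Nat.Coprime l (∏ q ∈ S, q)) (c : ℤ) (e : ℕ → ℤ) (h : l ∉ S) :
    (res (insert l S) (∏ q ∈ insert l S, q) c e).card ≤
      (res {l} l c e).card * (res S (∏ q ∈ S, q) c e).card := by
  rw [← Finset.card_product]
  apply Finset.card_le_card_of_injOn (fun a => (a % l, a % ∏ q ∈ S, q))
  · intro a ha
    simp only [res, Finset.coe_filter, Finset.mem_range, Finset.mem_insert, Set.mem_ofPred_eq,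
      forall_eq_or_imp] at ha
    simp only [res, Finset.coe_product, Finset.coe_filter, Finset.mem_range, Set.mem_prod,
      Finset.mem_singleton, forall_eq, Set.mem_ofPred_eq]
    refine ⟨⟨Nat.mod_lt _ hl0, ?_⟩, Nat.mod_lt _ hM, ?_⟩
    · rw [← ha.2.1]
      exact jac_congr (natmod dvd_rfl c)
    · intro q hq
      rw [← ha.2.2 q hq]
      exact jac_congr (natmod (Finset.dvd_prod_of_mem _ hq) c)
  · intro a ha b hb h'
    simp only [res, Finset.coe_filter, Finset.mem_range, Set.mem_ofPred_eq] at ha hb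
    simp only [Prod.mk.injEq] at h'
    rw [Finset.prod_insert h] at ha hb
    have h1 : a ≡ b [MOD l * ∏ q ∈ S, q] :=
      (Nat.modEq_and_modEq_iff_modEq_mul hco).mp ⟨h'.1, h'.2⟩
    exact Nat.ModEq.eq_of_lt_of_lt h1 ha.1 hb.1

theorem res_card (S : Finset ℕ) (hS : ∀ l ∈ S, l.Prime ∧ l ≠ 2) (c : ℤ) (e : ℕ → ℤ) :
    2 ^ S.card * (res S (∏ q ∈ S, q) c e).card ≤ ∏ q ∈ S, q := by
  induction S using Finset.induction_on with
  | empty => simp [res]
  | insert l S h ih =>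
    have hl := hS l (Finset.mem_insert_self _ _)
    have hS' : ∀ q ∈ S, q.Prime ∧ q ≠ 2 := fun q hq => hS q (Finset.mem_insert_of_mem hq)
    have hM : 0 < ∏ q ∈ S, q := Finset.prod_pos fun q hq => (hS' q hq).1.pos
    have hco : Nat.Coprime l (∏ q ∈ S, q) := by
      apply Nat.Coprime.prod_right
      intro q hq
      rw [Nat.coprime_primes hl.1 (hS' q hq).1]
      rintro rfl
      exact h hq
    have h1 := res_insert S l hl.1.pos hM hco c e h
    have h2 := res_one l hl.1 hl.2 c e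
    have h3 := ih hS'
    rw [Finset.card_insert_of_notMem h]
    calc 2 ^ (S.card + 1) * (res (insert l S) (∏ q ∈ insert l S, q) c e).card
        ≤ 2 ^ (S.card + 1) * ((res {l} l c e).card * (res S (∏ q ∈ S, q) c e).card) :=
          Nat.mul_le_mul_left _ h1
      _ = (2 * (res {l} l c e).card) * (2 ^ S.card * (res S (∏ q ∈ S, q) c e).card) := by ring
      _ ≤ l * ∏ q ∈ S, q := Nat.mul_le_mul h2 h3
      _ = ∏ q ∈ insert l S, q := by rw [Finset.prod_insert h]

/-! ### counting -/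

/-- the integers of a residue class in `[-N, N]` -/
noncomputable def cls (a : ℕ) (x : ℤ) (N : ℕ) : Finset ℤ :=
  (Finset.Ico (-(N : ℤ)) (N + 1)).filter (fun y => y ≡ x [ZMOD (a : ℤ)])

theorem class_count (a : ℕ) (ha : 1 ≤ a) (x : ℤ) (N : ℕ) :
    a * (cls a x N).card ≤ 2 * N + 1 + a := by
  have ha0 : (0 : ℤ) < a := by exact_mod_cast ha
  have haq : (0 : ℚ) < a := by exact_mod_cast ha
  have h1 := Int.Ico_filter_modEq_card (-(N : ℤ)) (N + 1) ha0 x
  have h3 : (⌈(((N : ℤ) + 1 - x : ℤ) : ℚ) / (a : ℤ)⌉ : ℚ) <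
      (((N : ℤ) + 1 - x : ℤ) : ℚ) / (a : ℤ) + 1 := Int.ceil_lt_add_one _
  have h4 : ((-(N : ℤ) - x : ℤ) : ℚ) / (a : ℤ) ≤
      (⌈((-(N : ℤ) - x : ℤ) : ℚ) / (a : ℤ)⌉ : ℚ) := Int.le_ceil _
  have h5 : (((⌈(((N : ℤ) + 1 - x : ℤ) : ℚ) / (a : ℤ)⌉ -
        ⌈((-(N : ℤ) - x : ℤ) : ℚ) / (a : ℤ)⌉ : ℤ)) : ℚ) ≤ (2 * N + 1) / a + 1 := by
    push_cast at h3 h4 ⊢
    have e : (((N : ℚ) + 1 - x) / a + 1) - (-(N : ℚ) - x) / a = (2 * N + 1) / a + 1 := by
      field_simp
      ring
    linarith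
  have h6 : (((cls a x N).card : ℕ) : ℚ) ≤ (2 * N + 1) / a + 1 := by
    have h7 : (((cls a x N).card : ℕ) : ℚ) =
        ((max (⌈(((N : ℤ) + 1 - x : ℤ) : ℚ) / (a : ℤ)⌉ -
          ⌈((-(N : ℤ) - x : ℤ) : ℚ) / (a : ℤ)⌉) 0 : ℤ) : ℚ) := by
      have := congrArg (fun z : ℤ => (z : ℚ)) h1
      push_cast at this ⊢
      exact this
    rw [h7]
    rcases le_total (⌈(((N : ℤ) + 1 - x : ℤ) : ℚ) / (a : ℤ)⌉ -
        ⌈((-(N : ℤ) - x : ℤ) : ℚ) / (a : ℤ)⌉) 0 with hle | hle
    · rw [max_eq_right hle]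
      push_cast
      positivity
    · rw [max_eq_left hle]
      exact h5
  have h8 : (a : ℚ) * (((cls a x N).card : ℕ) : ℚ) ≤ 2 * N + 1 + a := by
    calc (a : ℚ) * (((cls a x N).card : ℕ) : ℚ) ≤ a * ((2 * N + 1) / a + 1) := by gcongr
      _ = 2 * N + 1 + a := by field_simp
  exact_mod_cast h8

/-- the integers of `[-N, N]` with prescribed Legendre symbols -/
theorem count (S : Finset ℕ) (hS : ∀ l ∈ S, l.Prime ∧ l ≠ 2) (c : ℤ) (e : ℕ → ℤ) (N : ℕ)
    (Y : Set ℤ) (hY : ∀ y ∈ Y, ∀ l ∈ S, jacobiSym (y - c) l = e l) :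
    2 ^ S.card * (Y ∩ {y | |y| ≤ (N : ℤ)}).ncard ≤ 2 * N + 1 + ∏ q ∈ S, q := by
  set M := ∏ q ∈ S, q with hM
  have hM0 : 0 < M := Finset.prod_pos fun q hq => (hS q hq).1.pos
  have h1 : Y ∩ {y | |y| ≤ (N : ℤ)} ⊆
      (((res S M c e).biUnion fun a : ℕ => cls M (a : ℤ) N : Finset ℤ) : Set ℤ) := by
    rintro y ⟨hy, hyN⟩
    have hMz : (0 : ℤ) < M := by exact_mod_cast hM0
    have h2 : ((y % (M : ℤ)).toNat : ℤ) = y % (M : ℤ) :=
      Int.toNat_of_nonneg (Int.emod_nonneg _ hMz.ne')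
    rw [Finset.mem_coe, Finset.mem_biUnion]
    refine ⟨(y % (M : ℤ)).toNat, ?_, ?_⟩
    · rw [res, Finset.mem_filter, Finset.mem_range]
      refine ⟨?_, ?_⟩
      · have := Int.emod_lt_of_pos y hMz
        omega
      · intro l hl
        rw [← hY y hy l hl, h2]
        apply jac_congr
        apply Int.ModEq.sub_right
        exact (Int.mod_modEq y (M : ℤ)).of_dvd (by exact_mod_cast Finset.dvd_prod_of_mem _ hl)
    · have h3 := abs_le.mp (show |y| ≤ (N : ℤ) from hyN)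
      rw [cls, Finset.mem_filter, Finset.mem_Ico, h2]
      exact ⟨⟨h3.1, by omega⟩, (Int.mod_modEq y (M : ℤ)).symm⟩
  have h2 : (Y ∩ {y | |y| ≤ (N : ℤ)}).ncard ≤ ∑ a ∈ res S M c e, (cls M (a : ℤ) N).card := by
    refine (Set.ncard_le_ncard h1 (Finset.finite_toSet _)).trans ?_
    rw [Set.ncard_coe_finset]
    exact Finset.card_biUnion_le
  have h3 : M * (Y ∩ {y | |y| ≤ (N : ℤ)}).ncard ≤ (res S M c e).card * (2 * N + 1 + M) := by
    calc M * (Y ∩ {y | |y| ≤ (N : ℤ)}).ncard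
        ≤ M * ∑ a ∈ res S M c e, (cls M (a : ℤ) N).card := Nat.mul_le_mul_left _ h2
      _ = ∑ a ∈ res S M c e, M * (cls M (a : ℤ) N).card := Finset.mul_sum _ _ _
      _ ≤ ∑ a ∈ res S M c e, (2 * N + 1 + M) :=
          Finset.sum_le_sum fun a _ => class_count M hM0 a N
      _ = (res S M c e).card * (2 * N + 1 + M) := by rw [Finset.sum_const, smul_eq_mul]
  have h4 := res_card S hS c e
  rw [← hM] at h4
  have h5 : M * (2 ^ S.card * (Y ∩ {y | |y| ≤ (N : ℤ)}).ncard) ≤ M * (2 * N + 1 + M) := by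
    calc M * (2 ^ S.card * (Y ∩ {y | |y| ≤ (N : ℤ)}).ncard)
        = 2 ^ S.card * (M * (Y ∩ {y | |y| ≤ (N : ℤ)}).ncard) := by ring
      _ ≤ 2 ^ S.card * ((res S M c e).card * (2 * N + 1 + M)) := Nat.mul_le_mul_left _ h3
      _ = (2 ^ S.card * (res S M c e).card) * (2 * N + 1 + M) := by ring
      _ ≤ M * (2 * N + 1 + M) := Nat.mul_le_mul_right _ h4
  exact Nat.le_of_mul_le_mul_left h5 hM0

/-! ### the maps -/

section maps

variable {p : ℕ} {t u : ℕ → ℤ} {T : Equiv.Perm ℤ}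

theorem toNat_lt (hp : 1 < p) (x : ℤ) : (x % (p : ℤ)).toNat < p := by
  have h0 : (0 : ℤ) < p := by omega
  have h1 := Int.emod_nonneg x h0.ne'
  have h2 := Int.emod_lt_of_pos x h0
  omega

/-- translation of every residue class -/
def shf (p : ℕ) (m : ℕ → ℤ) : Equiv.Perm ℤ where
  toFun x := x + p * m (x % (p : ℤ)).toNat
  invFun x := x - p * m (x % (p : ℤ)).toNat
  left_inv x := by
    beta_reduce
    rw [Int.add_mul_emod_self_left]
    ring
  right_inv x := by
    beta_reduce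
    rw [Int.sub_mul_emod_self_left]
    ring

theorem exists_map (hT : VenturiniPerm p t u T) (u' : ℕ → ℤ)
    (h : ∀ r < p, u' r ≡ u r [ZMOD p * t r]) : ∃ T' : Equiv.Perm ℤ, VenturiniPerm p t u' T' := by
  have h1 : ∀ r < p, ∃ m : ℤ, u' r = u r - p * t r * m := by
    intro r hr
    obtain ⟨m, hm⟩ := (Int.modEq_iff_dvd.mp (h r hr))
    exact ⟨m, by linear_combination -hm⟩
  choose! m hm using h1
  refine ⟨T * shf p m, hT.one_lt, hT.tpos, ?_, ?_, hT.prod, hT.cop⟩
  · intro r hr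
    rw [hm r hr]
    have h2 := hT.cong r hr
    have h3 : (u r - p * t r * m r) ≡ u r [ZMOD (p : ℤ)] := by
      rw [Int.modEq_iff_dvd]
      exact ⟨t r * m r, by ring⟩
    exact h3.trans h2
  · intro x
    have hr := toNat_lt hT.one_lt x
    have h2 := hT.eqn (x + p * m (x % (p : ℤ)).toNat)
    rw [Int.add_mul_emod_self_left] at h2
    rw [Equiv.Perm.mul_apply, hm _ hr]
    show (p : ℤ) * T (x + p * m (x % (p : ℤ)).toNat) = _
    rw [h2]
    ring

theorem leg_dvd {l : ℕ} [Fact l.Prime]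
    (hl : (l : ℤ) ≡ 1 [ZMOD 8 * (p * ∏ r ∈ Finset.range p, t r)]) {b : ℤ} (hb : 0 < b)
    (hd : b ∣ p * ∏ r ∈ Finset.range p, t r) : jacobiSym b l = 1 := by
  obtain ⟨n, rfl⟩ := Int.eq_ofNat_of_zero_le hb.le
  rw [← jacobiSym.legendreSym.to_jacobiSym]
  apply leg_one l n (by
    rintro rfl
    simp at hb)
  have h1 : (l : ℤ) ≡ 1 [ZMOD ((8 * n : ℕ) : ℤ)] := by
    apply hl.of_dvd
    push_cast
    exact mul_dvd_mul_left 8 hd
  exact_mod_cast Int.natCast_modEq_iff.mp (by exact_mod_cast h1)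

theorem leg_step (hT : VenturiniPerm p t u T) {l : ℕ} [Fact l.Prime]
    (hl : (l : ℤ) ≡ 1 [ZMOD 8 * (p * ∏ r ∈ Finset.range p, t r)]) (c : ℤ)
    (hc : ∀ r < p, u r ≡ (t r - p) * c [ZMOD (l : ℤ)]) (x : ℤ) :
    jacobiSym (T x - c) l = jacobiSym (x - c) l := by
  have hr := toNat_lt hT.one_lt x
  set r := (x % (p : ℤ)).toNat with hrd
  have h1 : (p : ℤ) * (T x - c) ≡ t r * (x - c) [ZMOD (l : ℤ)] := by
    have h2 := hT.eqn x
    rw [← hrd] at h2
    have h3 := (Int.modEq_iff_dvd.mp (hc r hr))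
    rw [Int.modEq_iff_dvd]
    obtain ⟨q, hq⟩ := h3
    exact ⟨-q, by linear_combination -h2 - hq⟩
  have h2 := jac_congr h1
  have hp0 : (0 : ℤ) < p := by have := hT.one_lt; omega
  rw [jacobiSym.mul_left, jacobiSym.mul_left, leg_dvd hl hp0 (Dvd.intro _ rfl),
    leg_dvd hl (hT.tpos r hr) ((Finset.dvd_prod_of_mem t (Finset.mem_range.mpr hr)).mul_left _),
    one_mul, one_mul] at h2
  exact h2

theorem leg_orbit (hT : VenturiniPerm p t u T) {l : ℕ} [Fact l.Prime]
    (hl : (l : ℤ) ≡ 1 [ZMOD 8 * (p * ∏ r ∈ Finset.range p, t r)]) (c : ℤ)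
    (hc : ∀ r < p, u r ≡ (t r - p) * c [ZMOD (l : ℤ)]) (x y : ℤ) (hy : y ∈ orbit T x) :
    jacobiSym (y - c) l = jacobiSym (x - c) l := by
  have hnat : ∀ n : ℕ, ∀ x, jacobiSym ((T ^ n) x - c) l = jacobiSym (x - c) l := by
    intro n
    induction n with
    | zero => intro x; simp
    | succ n ih =>
      intro x
      rw [pow_succ, Equiv.Perm.mul_apply, ih (T x), leg_step hT hl c hc x]
  obtain ⟨i, rfl⟩ := hy
  obtain ⟨n, rfl | rfl⟩ := i.eq_nat_or_neg
  · rw [zpow_natCast]; exact hnat n x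
  · have h1 := hnat n ((T ^ (-(n : ℤ))) x)
    rw [← zpow_natCast, ← Equiv.Perm.mul_apply, ← zpow_add, add_neg_cancel, zpow_zero,
      Equiv.Perm.one_apply] at h1
    exact h1.symm

theorem ge_of_nonneg (hT : VenturiniPerm p t u T) (K : ℤ) (hu : ∀ r < p, u r ≤ -(p * K)) (x : ℤ)
    (hx : 0 ≤ x) : K ≤ T x := by
  have hr := toNat_lt hT.one_lt x
  have hp0 : (0 : ℤ) < p := by have := hT.one_lt; omega
  have h1 := hT.eqn x
  have h2 := hu _ hr
  have h3 : 0 ≤ t (x % (p : ℤ)).toNat * x := mul_nonneg (hT.tpos _ hr).le hx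
  have h4 : (p : ℤ) * K ≤ p * T x := by linarith
  exact le_of_mul_le_mul_left h4 hp0

theorem ge_pow (hT : VenturiniPerm p t u T) (K : ℤ) (hK : 0 ≤ K) (hu : ∀ r < p, u r ≤ -(p * K))
    (x : ℤ) (hx : 0 ≤ x) (n : ℕ) : K ≤ (T ^ (n + 1)) x := by
  induction n with
  | zero => simpa using ge_of_nonneg hT K hu x hx
  | succ n ih =>
    rw [pow_succ', Equiv.Perm.mul_apply]
    exact ge_of_nonneg hT K hu _ (hK.trans ih)

theorem not_mem (hT : VenturiniPerm p t u T) (K : ℤ) (hu : ∀ r < p, u r ≤ -(p * K)) (y z : ℤ)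
    (hy : 0 ≤ y) (hyK : y < K) (hz : 0 ≤ z) (hzK : z < K) (hne : z ≠ y) : z ∉ orbit T y := by
  rintro ⟨i, hi⟩
  have hK : 0 ≤ K := by linarith
  obtain ⟨n, rfl | rfl⟩ := i.eq_nat_or_neg
  · cases n with
    | zero => simp at hi; exact hne hi.symm
    | succ n =>
      rw [zpow_natCast] at hi
      have := ge_pow hT K hK hu y hy n
      omega
  · cases n with
    | zero => simp at hi; exact hne hi.symm
    | succ n =>
      have h1 : (T ^ (n + 1)) z = y := by
        rw [← hi, ← zpow_natCast, ← Equiv.Perm.mul_apply, ← zpow_add, add_neg_cancel, zpow_zero,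
          Equiv.Perm.one_apply]
      have := ge_pow hT K hK hu z hz n
      omega

theorem infinite_orbit (hT : VenturiniPerm p t u T) (K : ℤ) (hu : ∀ r < p, u r ≤ -(p * K))
    (y : ℤ) (hy : 0 ≤ y) (hyK : y < K) : (orbit T y).Infinite := by
  have hK : 0 ≤ K := by linarith
  have hne : ∀ n : ℕ, 0 < n → (T ^ n) y ≠ y := by
    intro n hn heq
    obtain ⟨m, rfl⟩ : ∃ m, n = m + 1 := ⟨n - 1, by omega⟩
    have := ge_pow hT K hK hu y hy m
    omega
  have hinj : Function.Injective (fun n : ℕ => (T ^ n) y) := by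
    intro m n hmn
    simp only at hmn
    rcases Nat.lt_trichotomy m n with h | h | h
    · exfalso
      obtain ⟨d, rfl⟩ := Nat.exists_eq_add_of_lt h
      apply hne (d + 1) (by omega)
      rw [add_assoc, pow_add, Equiv.Perm.mul_apply] at hmn
      exact ((T ^ m).injective hmn).symm
    · exact h
    · exfalso
      obtain ⟨d, rfl⟩ := Nat.exists_eq_add_of_lt h
      apply hne (d + 1) (by omega)
      rw [add_assoc, pow_add, Equiv.Perm.mul_apply] at hmn
      exact (T ^ n).injective hmn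
  refine Set.infinite_of_injective_forall_mem hinj fun n => ?_
  exact ⟨n, by rw [zpow_natCast]⟩

theorem exists_good (hT : VenturiniPerm p t u T) (s : ℕ) :
    ∃ S : Finset ℕ, S.card = s ∧ Good p t S := by
  have hpos : 0 < 8 * (p * ∏ r ∈ Finset.range p, t r) := by
    have hp0 : (0 : ℤ) < p := by have := hT.one_lt; omega
    have : 0 < ∏ r ∈ Finset.range p, t r :=
      Finset.prod_pos fun r hr => hT.tpos r (Finset.mem_range.mp hr)
    positivity
  obtain ⟨k, hk⟩ := Int.eq_ofNat_of_zero_le hpos.le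
  have hk0 : k ≠ 0 := by
    rintro rfl
    rw [hk] at hpos
    simp at hpos
  induction s with
  | zero => exact ⟨∅, rfl, by intro l hl; simp at hl⟩
  | succ s ih =>
    obtain ⟨S, hS, hG⟩ := ih
    obtain ⟨l, hl, hlt, hm⟩ := Nat.exists_prime_gt_modEq_one (k := k) (S.sup id) hk0
    have hnot : l ∉ S := by
      intro h
      have := Finset.le_sup (f := id) h
      simp only [id] at this
      omega
    refine ⟨insert l S, by rw [Finset.card_insert_of_notMem hnot, hS], ?_⟩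
    intro q hq
    rw [Finset.mem_insert] at hq
    rcases hq with rfl | hq
    · refine ⟨hl, ?_⟩
      rw [hk]
      exact_mod_cast Int.natCast_modEq_iff.mpr hm
    · exact hG q hq

theorem good_ne_two {S : Finset ℕ} (hS : Good p t S) :
    ∀ l ∈ S, l.Prime ∧ l ≠ 2 := by
  intro l hl
  refine ⟨(hS l hl).1, ?_⟩
  rintro rfl
  have h1 := (hS 2 hl).2
  have h2 : ((2 : ℕ) : ℤ) ≡ 1 [ZMOD 8] := h1.of_mul_right _
  revert h2
  decide

theorem bound (hT : VenturiniPerm p t u T) {S : Finset ℕ} (hS : Good p t S) (c : ℤ)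
    (hc : ∀ r < p, u r ≡ (t r - p) * c [ZMOD ((∏ l ∈ S, l : ℕ) : ℤ)]) (x : ℤ) (N : ℕ) :
    2 ^ S.card * (orbit T x ∩ {y | |y| ≤ (N : ℤ)}).ncard ≤ 2 * N + 1 + ∏ l ∈ S, l := by
  apply count S (good_ne_two hS) c (fun l => jacobiSym (x - c) l) N
  intro y hy l hl
  have : Fact l.Prime := ⟨(hS l hl).1⟩
  apply leg_orbit hT (hS l hl).2 c _ x y hy
  intro r hr
  exact (hc r hr).of_dvd (by exact_mod_cast Finset.dvd_prod_of_mem _ hl)

theorem prod_modEq {S : Finset ℕ} (h : Good p t S) :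
    ((∏ l ∈ S, l : ℕ) : ℤ) ≡ 1 [ZMOD 8 * (p * ∏ r ∈ Finset.range p, t r)] := by
  induction S using Finset.induction_on with
  | empty => simp
  | insert l S hl ih =>
    rw [Finset.prod_insert hl]
    push_cast
    have h1 := (h l (Finset.mem_insert_self _ _)).2
    have h2 := ih fun q hq => h q (Finset.mem_insert_of_mem hq)
    push_cast at h2
    simpa using h1.mul h2

end maps

/-- **Main result.** -/
theorem result (p : ℕ) (t u : ℕ → ℤ) (T : Equiv.Perm ℤ) (hT : VenturiniPerm p t u T) :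
    (∀ s : ℕ, ∃ S : Finset ℕ, S.card = s ∧ Good p t S) ∧
    ∀ S : Finset ℕ, Good p t S →
      (∀ (u' : ℕ → ℤ) (c : ℤ), (∀ r < p, u' r ≡ u r [ZMOD p * t r]) →
        (∀ r < p, u' r ≡ (t r - p) * c [ZMOD ((∏ l ∈ S, l : ℕ) : ℤ)]) →
        ∃ T' : Equiv.Perm ℤ, VenturiniPerm p t u' T' ∧
          (∀ (x : ℤ) (N : ℕ), 2 ^ S.card * (orbit T' x ∩ {y | |y| ≤ (N : ℤ)}).ncard ≤
            2 * N + 1 + ∏ l ∈ S, l) ∧
          ∀ K : ℤ, (∀ r < p, u' r ≤ -(p * K)) → ∀ y : ℤ, 0 ≤ y → y < K →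
            (orbit T' y).Infinite ∧ ∀ z : ℤ, 0 ≤ z → z < K → z ≠ y → z ∉ orbit T' y) ∧
      ∃ T' : Equiv.Perm ℤ, VenturiniPerm p t (fun r => (∏ l ∈ S, l : ℕ) * u r) T' ∧
        (∀ (x : ℤ) (N : ℕ), 2 ^ S.card * (orbit T' x ∩ {y | |y| ≤ (N : ℤ)}).ncard ≤
          2 * N + 1 + ∏ l ∈ S, l) := by
  refine ⟨exists_good hT, fun S hS => ⟨?_, ?_⟩⟩
  · intro u' c h1 h2
    obtain ⟨T', hT'⟩ := exists_map hT u' h1
    exact ⟨T', hT', bound hT' hS c h2, fun K hK y hy hyK =>
      ⟨infinite_orbit hT' K hK y hy hyK, fun z hz hzK hne =>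
        not_mem hT' K hK y z hy hyK hz hzK hne⟩⟩
  · have h1 : ∀ r < p, (((∏ l ∈ S, l : ℕ) : ℤ) * u r) ≡ u r [ZMOD p * t r] := by
      intro r hr
      have h2 := prod_modEq hS
      have h3 : ((∏ l ∈ S, l : ℕ) : ℤ) ≡ 1 [ZMOD p * t r] := by
        apply h2.of_dvd
        apply Dvd.dvd.mul_left
        exact mul_dvd_mul_left _ (Finset.dvd_prod_of_mem t (Finset.mem_range.mpr hr))
      simpa using h3.mul_right (u r)
    obtain ⟨T', hT'⟩ := exists_map hT _ h1
    refine ⟨T', hT', bound hT' hS 0 ?_⟩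
    intro r _
    rw [mul_zero]
    exact Int.modEq_zero_iff_dvd.mpr (Dvd.intro _ rfl)

end Pool.Agent.Results.MP_153093_nt.EveryType
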