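import Pool.Agent.H7V.Fill

/-!
# Orbits of generalized 3x+1 permutations: the time needed to fill a positive proportion

For every map `T` of the class of Q1: among `n` consecutive points of an orbit at most
`C (K n / log N + N e^(-cK) + N^(1-c))` different points lie in `[-N, N]`, for every `K`. So `N`
consecutive steps reach only `O(N log log N / log N)` points of `[-N, N]`, and to reach a positive
proportion of `[-N, N]` an orbit needs at least a constant times `N log N` steps.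
-/

namespace Pool.Agent.Results.MP_153093_nt.FillingTime

open Pool.Agent.H72.VPerm Pool.Agent.H7V

/-- The bounds with a free integer `K`. -/
theorem bounds (p : ℕ) (t u : ℕ → ℤ) (T : Equiv.Perm ℤ) (h : VenturiniPerm p t u T) :
    ∃ c C : ℝ, 0 < c ∧ c < 1 ∧ 0 < C ∧ ∀ N K : ℕ, 2 ≤ N → ∀ (x a : ℤ) (n : ℕ),
      (({y : ℤ | |y| ≤ (N : ℤ) ∧ ∃ i, a ≤ i ∧ i < a + n ∧ (T ^ i) x = y}.ncard : ℕ) : ℝ)
        ≤ C * (K * n / Real.log N + N * Real.exp (-c * K) + (N : ℝ) ^ (1 - c)) := by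
  obtain ⟨η, hη, hη1, hs⟩ := exists_eta h
  have hp1 := h.one_lt
  have hpr : (1 : ℝ) < p := by exact_mod_cast hp1
  have hlp : 0 < Real.log p := Real.log_pos hpr
  have hlη : Real.log η < 0 := Real.log_neg hη hη1
  have hU : (0 : ℝ) ≤ UU p u := by exact_mod_cast (UU_nonneg (p := p) (u := u))
  set U : ℝ := (UU p u : ℝ) with hUdef
  set c : ℝ := min (1 / 4) (-Real.log η) with hc
  have hc0 : 0 < c := lt_min (by norm_num) (by linarith)
  have hc4 : c ≤ 1 / 4 := min_le_left _ _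
  have hcη : c ≤ -Real.log η := min_le_right _ _
  set A : ℝ := 6 / (1 - η) + 5 * (2 * U + 3) with hA
  have h1η : 0 < 1 - η := by linarith
  have hA0 : 0 < A := by positivity
  refine ⟨c, 2 * Real.log p + 2 * A + 5, hc0, by linarith, by positivity, ?_⟩
  intro N K hN
  have hN1 : 1 ≤ N := by omega
  have hNr : (2 : ℝ) ≤ N := by exact_mod_cast hN
  have hNr1 : (1 : ℝ) ≤ N := by linarith
  have hN0 : (0 : ℝ) < N := by linarith
  have hlogN : 0 < Real.log N := Real.log_pos (by linarith)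
  set k := Nat.log p N / 2 with hk
  have hkN : (p ^ k) ^ 2 ≤ N := by
    rw [← pow_mul]
    exact (Nat.pow_le_pow_right (by omega) (by omega)).trans (Nat.pow_log_le_self p (by omega))
  have hklog : (k : ℝ) ≤ Real.log N := log_bd p N hp1 hN1
  -- powers of `N`
  have hlog4 : Real.log N ≤ 4 * (N : ℝ) ^ (1 / 4 : ℝ) := by
    have := Real.log_le_rpow_div hN0.le (show (0 : ℝ) < 1 / 4 by norm_num)
    linarith
  have h14 : (1 : ℝ) ≤ (N : ℝ) ^ (1 / 4 : ℝ) := Real.one_le_rpow hNr1 (by norm_num)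
  have hq : (N : ℝ) ^ (1 / 4 : ℝ) ≤ (N : ℝ) ^ (1 - c) :=
    Real.rpow_le_rpow_of_exponent_le hNr1 (by linarith)
  have h34 : (N : ℝ) ^ (1 / 4 : ℝ) * Real.sqrt N ≤ (N : ℝ) ^ (1 - c) := by
    rw [Real.sqrt_eq_rpow, ← Real.rpow_add hN0]
    exact Real.rpow_le_rpow_of_exponent_le hNr1 (by linarith)
  have hsq0 : 0 ≤ Real.sqrt N := Real.sqrt_nonneg _
  have hNc0 : 0 < (N : ℝ) ^ (1 - c) := Real.rpow_pos_of_pos hN0 _
  -- the set `Ds`
  have hDs : ∀ K : ℕ, ((Ds T K k N).card : ℝ) ≤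
      A * (N * Real.exp (-c * K) + (N : ℝ) ^ (1 - c)) := by
    intro K
    have h1 := card_Ds h η hη hη1 hs K k N hN1 hkN
    have h2 : η ^ K ≤ Real.exp (-c * K) := by
      have : η ^ K = Real.exp (Real.log η * K) := by
        rw [mul_comm, Real.exp_nat_mul, Real.exp_log hη]
      rw [this]
      apply Real.exp_le_exp.mpr
      have : (0 : ℝ) ≤ K := Nat.cast_nonneg K
      nlinarith
    have h3 : ((k : ℝ) + 1) * ((2 * U + 3) * Real.sqrt N) ≤
        5 * (2 * U + 3) * (N : ℝ) ^ (1 - c) := by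
      have h4 : (k : ℝ) + 1 ≤ 5 * (N : ℝ) ^ (1 / 4 : ℝ) := by linarith
      have h5 : ((k : ℝ) + 1) * ((2 * U + 3) * Real.sqrt N) ≤
          5 * (N : ℝ) ^ (1 / 4 : ℝ) * ((2 * U + 3) * Real.sqrt N) :=
        mul_le_mul_of_nonneg_right h4 (by positivity)
      have h6 : 5 * (N : ℝ) ^ (1 / 4 : ℝ) * ((2 * U + 3) * Real.sqrt N) =
          5 * (2 * U + 3) * ((N : ℝ) ^ (1 / 4 : ℝ) * Real.sqrt N) := by ring
      have h7 : 5 * (2 * U + 3) * ((N : ℝ) ^ (1 / 4 : ℝ) * Real.sqrt N) ≤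
          5 * (2 * U + 3) * (N : ℝ) ^ (1 - c) := mul_le_mul_of_nonneg_left h34 (by positivity)
      linarith
    have h8 : 6 * (N : ℝ) * η ^ K / (1 - η) ≤ 6 / (1 - η) * (N * Real.exp (-c * K)) := by
      have : 6 * (N : ℝ) * η ^ K / (1 - η) = 6 / (1 - η) * (N * η ^ K) := by ring
      rw [this]
      apply mul_le_mul_of_nonneg_left _ (by positivity)
      exact mul_le_mul_of_nonneg_left h2 hN0.le
    have h9 : 0 ≤ (N : ℝ) * Real.exp (-c * K) := by positivity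
    have h10 : 0 ≤ 6 / (1 - η) * (N : ℝ) ^ (1 - c) := by positivity
    have h11 : 0 ≤ 5 * (2 * U + 3) * ((N : ℝ) * Real.exp (-c * K)) := by positivity
    rw [hA]
    nlinarith
  intro x a n
  -- the window bound for small `K`
  have key : ∀ K' : ℕ, (K' : ℝ) ≤ Real.log N + 1 →
      (({y : ℤ | |y| ≤ (N : ℤ) ∧ ∃ i, a ≤ i ∧ i < a + n ∧ (T ^ i) x = y}.ncard : ℕ) : ℝ)
      ≤ 2 * Real.log p * (K' * n / Real.log N) + 5 * (N : ℝ) ^ (1 - c) +
        A * (N * Real.exp (-c * K') + (N : ℝ) ^ (1 - c)) := by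
    intro K' hK'
    have h1 := window_bound T K' k N n x a
    have h2 : (({y : ℤ | |y| ≤ (N : ℤ) ∧ ∃ i, a ≤ i ∧ i < a + n ∧ (T ^ i) x = y}.ncard : ℕ) : ℝ)
        ≤ K' * (((n / (k + 1) : ℕ) : ℝ) + 1) + (Ds T K' k N).card := by exact_mod_cast h1
    have h3 : ((n / (k + 1) : ℕ) : ℝ) ≤ n / ((k : ℝ) + 1) := by
      have := @Nat.cast_div_le ℝ _ _ _ n (k + 1)
      push_cast at this
      exact this
    have h4 : Real.log N ≤ 2 * Real.log p * ((k : ℝ) + 1) := by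
      have h5 : N < p ^ (Nat.log p N + 1) := Nat.lt_pow_succ_log_self hp1 N
      have h6 : (N : ℝ) < (p : ℝ) ^ (Nat.log p N + 1) := by exact_mod_cast h5
      have h7 := Real.log_lt_log hN0 h6
      rw [Real.log_pow] at h7
      have h8 : ((Nat.log p N + 1 : ℕ) : ℝ) ≤ 2 * ((k : ℝ) + 1) := by
        have : Nat.log p N + 1 ≤ 2 * (k + 1) := by omega
        exact_mod_cast this
      have h9 := mul_le_mul_of_nonneg_right h8 hlp.le
      linarith
    have h5 : (n : ℝ) / ((k : ℝ) + 1) ≤ 2 * Real.log p * (n / Real.log N) := by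
      rw [div_le_iff₀ (by positivity)]
      have h6 : 2 * Real.log p * (n / Real.log N) * ((k : ℝ) + 1) =
        n * ((2 * Real.log p * ((k : ℝ) + 1)) / Real.log N) := by ring
      rw [h6]
      have h7 : 1 ≤ (2 * Real.log p * ((k : ℝ) + 1)) / Real.log N := by
        rw [le_div_iff₀ hlogN]; linarith
      have : (0 : ℝ) ≤ n := Nat.cast_nonneg n
      nlinarith
    have h6 : (K' : ℝ) * (((n / (k + 1) : ℕ) : ℝ) + 1) ≤
        2 * Real.log p * (K' * n / Real.log N) + K' := by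
      have h7 : ((n / (k + 1) : ℕ) : ℝ) ≤ 2 * Real.log p * (n / Real.log N) := h3.trans h5
      have h8 : (0 : ℝ) ≤ K' := Nat.cast_nonneg K'
      have h9 : 2 * Real.log p * (K' * n / Real.log N) =
        K' * (2 * Real.log p * (n / Real.log N)) := by ring
      rw [h9]
      nlinarith
    have h7 : (K' : ℝ) ≤ 5 * (N : ℝ) ^ (1 - c) := by linarith
    have h8 := hDs K'
    linarith
  set K' := min K ⌈Real.log N⌉₊ with hK'
  have hK'K : K' ≤ K := min_le_left _ _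
  have hK'log : (K' : ℝ) ≤ Real.log N + 1 := by
    have h1 : (K' : ℝ) ≤ (⌈Real.log N⌉₊ : ℝ) := by exact_mod_cast min_le_right K _
    have h2 := Nat.ceil_lt_add_one hlogN.le
    linarith
  have h1 := key K' hK'log
  have h2 : (N : ℝ) * Real.exp (-c * K') ≤ N * Real.exp (-c * K) + (N : ℝ) ^ (1 - c) := by
    rcases le_total K ⌈Real.log N⌉₊ with hle | hle
    · rw [hK', min_eq_left hle]; linarith
    · rw [hK', min_eq_right hle]
      have h3 : Real.log N ≤ (⌈Real.log N⌉₊ : ℝ) := Nat.le_ceil _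
      have h4 : Real.exp (-c * (⌈Real.log N⌉₊ : ℝ)) ≤ Real.exp (-c * Real.log N) :=
        Real.exp_le_exp.mpr (by nlinarith)
      have h5 : (N : ℝ) * Real.exp (-c * Real.log N) = (N : ℝ) ^ (1 - c) := by
        rw [sub_eq_add_neg, Real.rpow_add hN0, Real.rpow_one, Real.rpow_def_of_pos hN0]
        ring_nf
      have h6 : (N : ℝ) * Real.exp (-c * (⌈Real.log N⌉₊ : ℝ)) ≤
        N * Real.exp (-c * Real.log N) := mul_le_mul_of_nonneg_left h4 hN0.le
      have h7 : 0 ≤ (N : ℝ) * Real.exp (-c * K) := by positivity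
      linarith
  have h3 : (K' : ℝ) * n / Real.log N ≤ K * n / Real.log N := by
    apply div_le_div_of_nonneg_right _ hlogN.le
    exact mul_le_mul_of_nonneg_right (by exact_mod_cast hK'K) (Nat.cast_nonneg n)
  have hX : 0 ≤ (K : ℝ) * n / Real.log N := by positivity
  have hY : 0 ≤ (N : ℝ) * Real.exp (-c * K) := by positivity
  have h4 : 2 * Real.log p * ((K' : ℝ) * n / Real.log N) ≤
      2 * Real.log p * (K * n / Real.log N) := mul_le_mul_of_nonneg_left h3 (by positivity)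
  have h5 : A * (N * Real.exp (-c * K') + (N : ℝ) ^ (1 - c)) ≤
      A * (N * Real.exp (-c * K) + 2 * (N : ℝ) ^ (1 - c)) :=
    mul_le_mul_of_nonneg_left (by linarith) hA0.le
  have e1 : 0 ≤ (2 * A + 5) * ((K : ℝ) * n / Real.log N) := by positivity
  have e2 : 0 ≤ (2 * Real.log p + A + 5) * ((N : ℝ) * Real.exp (-c * K)) := by positivity
  have e3 : 0 ≤ (2 * Real.log p) * (N : ℝ) ^ (1 - c) := by positivity
  nlinarith

/-- **Main result.** -/
theorem result (p : ℕ) (t u : ℕ → ℤ) (T : Equiv.Perm ℤ) (h : VenturiniPerm p t u T) :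
    (∃ c C : ℝ, 0 < c ∧ c < 1 ∧ 0 < C ∧ ∀ N K : ℕ, 2 ≤ N → ∀ (x a : ℤ) (n : ℕ),
      (({y : ℤ | |y| ≤ (N : ℤ) ∧ ∃ i, a ≤ i ∧ i < a + n ∧ (T ^ i) x = y}.ncard : ℕ) : ℝ)
        ≤ C * (K * n / Real.log N + N * Real.exp (-c * K) + (N : ℝ) ^ (1 - c))) ∧
    (∀ ε : ℝ, 0 < ε → ∃ δ : ℝ, 0 < δ ∧ ∃ N₀ : ℕ, ∀ N : ℕ, N₀ ≤ N → ∀ (x a : ℤ) (n : ℕ),
      ε * N ≤ (({y : ℤ | |y| ≤ (N : ℤ) ∧ ∃ i, a ≤ i ∧ i < a + n ∧ (T ^ i) x = y}.ncard : ℕ) : ℝ)
        → δ * N * Real.log N ≤ n) := by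
  obtain ⟨c, C, hc, hc1, hC, hb⟩ := bounds p t u T h
  refine ⟨⟨c, C, hc, hc1, hC, hb⟩, ?_⟩
  intro ε hε
  -- choose `K`
  obtain ⟨K, hK⟩ : ∃ K : ℕ, C * Real.exp (-c * K) ≤ ε / 4 := by
    have h1 : Filter.Tendsto (fun K : ℕ => C * Real.exp (-(c * K))) Filter.atTop
        (nhds (C * 0)) := by
      refine Filter.Tendsto.const_mul _ ?_
      refine Real.tendsto_exp_neg_atTop_nhds_zero.comp ?_
      exact Filter.Tendsto.const_mul_atTop hc tendsto_natCast_atTop_atTop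
    rw [mul_zero] at h1
    obtain ⟨K, hK⟩ := (h1.eventually (eventually_lt_nhds (show (0 : ℝ) < ε / 4 by linarith))).exists
    exact ⟨K, by rw [neg_mul]; exact hK.le⟩
  obtain ⟨N₁, hN₁⟩ : ∃ N₁ : ℕ, ∀ N : ℕ, N₁ ≤ N → C * (N : ℝ) ^ (-c) ≤ ε / 4 := by
    have h1 : Filter.Tendsto (fun N : ℕ => C * (N : ℝ) ^ (-c)) Filter.atTop
        (nhds (C * 0)) := by
      refine Filter.Tendsto.const_mul _ ?_
      exact (tendsto_rpow_neg_atTop hc).comp tendsto_natCast_atTop_atTop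
    rw [mul_zero] at h1
    obtain ⟨N₁, hN₁⟩ := Filter.eventually_atTop.mp
      (h1.eventually (eventually_lt_nhds (show (0 : ℝ) < ε / 4 by linarith)))
    exact ⟨N₁, fun N hN => (hN₁ N hN).le⟩
  have hK1 : (0 : ℝ) < (K : ℝ) + 1 := by positivity
  refine ⟨ε / (2 * C * (K + 1)), by positivity, max N₁ 2, ?_⟩
  intro N hN x a n hn
  have hN2 : 2 ≤ N := (le_max_right _ _).trans hN
  have hNr : (2 : ℝ) ≤ N := by exact_mod_cast hN2
  have hN0 : (0 : ℝ) < N := by linarith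
  have hlogN : 0 < Real.log N := Real.log_pos (by linarith)
  have hpow : C * (N : ℝ) ^ (1 - c) ≤ ε / 4 * N := by
    have h1 := hN₁ N ((le_max_left _ _).trans hN)
    have h2 : (N : ℝ) ^ (1 - c) = N * (N : ℝ) ^ (-c) := by
      rw [sub_eq_add_neg, Real.rpow_add hN0, Real.rpow_one]
    rw [h2]
    have := mul_le_mul_of_nonneg_right h1 hN0.le
    linarith
  have hexp : C * (N * Real.exp (-c * K)) ≤ ε / 4 * N := by
    have := mul_le_mul_of_nonneg_right hK hN0.le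
    linarith
  have h1 := hb N K hN2 x a n
  have h2 : ε / 2 * N ≤ C * (K * n / Real.log N) := by nlinarith
  have h3 : C * ((K : ℝ) * n / Real.log N) = C * K * n / Real.log N := by ring
  rw [h3, le_div_iff₀ hlogN] at h2
  have h4 : (0 : ℝ) ≤ n := Nat.cast_nonneg n
  have h5 : ε / 2 * N * Real.log N ≤ C * (K + 1) * n := by nlinarith
  have h8 : ε / (2 * C * (K + 1)) * N * Real.log N =
      (ε / 2 * N * Real.log N) / (C * (K + 1)) := by
    field_simp
  rw [h8, div_le_iff₀ (by positivity)]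
  linarith

end Pool.Agent.Results.MP_153093_nt.FillingTime
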