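import Pool.Agent.H72.VPermOrbit

/-!
# Orbits of generalized 3x+1 permutations (Venturini's density question)

For every map `T` of the class of Q1 there are `κ, c > 0` such that, up to at most `C N^(1-c)`
exceptions, every integer of `[-N, N]` leaves `[-N^(1+κ), N^(1+κ)]` within `log N` steps both under
`T` and under `T⁻¹`.  Consequently an infinite orbit has at most `log N · R + C N^(1-c)` points in
`[-N, N]`, where `R` is the number of times at which it comes back to `[-N, N]` from outside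
`[-N^(1+κ), N^(1+κ)]`: an orbit can have positive upper density only if it makes at least a constant
times `N / log N` such returns, for arbitrarily large `N`.
-/

namespace Pool.Agent.Results.MP_153093_nt.Returns

open Pool.Agent.H72.VPerm

/-- **Main result.** Escape in both directions of time for all but `C N^(1-c)` integers of
`[-N, N]`, with its consequences for infinite orbits, for invariant sets (unions of cycles) and for
windows of consecutive times. -/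
theorem result (p : ℕ) (t u : ℕ → ℤ) (T : Equiv.Perm ℤ) (h : VenturiniPerm p t u T) :
    ∃ κ c C : ℝ, 0 < κ ∧ 0 < c ∧ c < 1 ∧ 0 < C ∧ ∀ N : ℕ, 1 ≤ N →
      (∃ k : ℕ, (k : ℝ) ≤ Real.log N ∧
        (({y : ℤ | |y| ≤ (N : ℤ) ∧ ¬ ((N : ℝ) ^ (1 + κ) < |(((T ^ k) y : ℤ) : ℝ)| ∧
          (N : ℝ) ^ (1 + κ) < |(((T ^ k)⁻¹ y : ℤ) : ℝ)|)}.ncard : ℕ) : ℝ)
            ≤ C * (N : ℝ) ^ (1 - c)) ∧
      (∀ x : ℤ, (orbit T x).Infinite →
        (returns T x N ((N : ℝ) ^ (1 + κ))).Finite ∧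
        (((orbit T x ∩ {y | |y| ≤ (N : ℤ)}).ncard : ℕ) : ℝ)
          ≤ Real.log N * (returns T x N ((N : ℝ) ^ (1 + κ))).ncard + C * (N : ℝ) ^ (1 - c)) ∧
      (∀ F : Set ℤ, T '' F = F → (∀ y ∈ F, |((y : ℤ) : ℝ)| ≤ (N : ℝ) ^ (1 + κ)) →
        (((F ∩ {y | |y| ≤ (N : ℤ)}).ncard : ℕ) : ℝ) ≤ C * (N : ℝ) ^ (1 - c)) ∧
      (∀ x a b : ℤ, (∀ i, a ≤ i → i ≤ b → |(((T ^ i) x : ℤ) : ℝ)| ≤ (N : ℝ) ^ (1 + κ)) →
        (({y | |y| ≤ (N : ℤ) ∧ ∃ i, a ≤ i ∧ i ≤ b ∧ (T ^ i) x = y}.ncard : ℕ) : ℝ)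
          ≤ Real.log N + C * (N : ℝ) ^ (1 - c)) := by
  obtain ⟨κ, c, C, hκ, hc, hc1, hC, hmain⟩ := typical h
  refine ⟨κ, c, C, hκ, hc, hc1, hC, ?_⟩
  intro N hN
  have hE := hmain N hN
  have hk := log_bd p N h.one_lt hN
  set k := Nat.log p N / 2 with hkdef
  refine ⟨⟨k, hk, ?_⟩, ?_, ?_, ?_⟩
  · have hset : {y : ℤ | |y| ≤ (N : ℤ) ∧ ¬ ((N : ℝ) ^ (1 + κ) < |(((T ^ k) y : ℤ) : ℝ)| ∧
          (N : ℝ) ^ (1 + κ) < |(((T ^ k)⁻¹ y : ℤ) : ℝ)|)} = (Ex T κ k N : Set ℤ) := by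
      ext y
      unfold Ex
      rw [Set.mem_ofPred_eq, Finset.mem_coe, Finset.mem_filter, Finset.mem_Icc, ← abs_le]
      push_cast
      rfl
    rw [hset, Set.ncard_coe_finset]
    exact hE
  · intro x hx
    obtain ⟨h1, h2⟩ := visits_le T κ hκ.le k N x hx
    refine ⟨h1, ?_⟩
    have h3 : (((orbit T x ∩ {y | |y| ≤ (N : ℤ)}).ncard : ℕ) : ℝ)
        ≤ k * ((returns T x N ((N : ℝ) ^ (1 + κ))).ncard : ℕ) + ((Ex T κ k N).card : ℕ) := by
      exact_mod_cast h2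
    have h4 : (k : ℝ) * ((returns T x N ((N : ℝ) ^ (1 + κ))).ncard : ℕ)
        ≤ Real.log N * ((returns T x N ((N : ℝ) ^ (1 + κ))).ncard : ℕ) :=
      mul_le_mul_of_nonneg_right hk (by positivity)
    linarith
  · intro F hF hFM
    have h1 := invariant_le T κ k N F (fun y hy => by
      rw [← hF]; exact ⟨y, hy, rfl⟩) (fun y hy => by
        have := hFM y hy
        push_cast
        exact this)
    have h2 : (((F ∩ {y | |y| ≤ (N : ℤ)}).ncard : ℕ) : ℝ) ≤ ((Ex T κ k N).card : ℕ) := by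
      exact_mod_cast h1
    linarith
  · intro x a b hw
    have h1 := window_le T κ k N x a b (fun i hi1 hi2 => by
      have := hw i hi1 hi2
      push_cast
      exact this)
    have h2 : (({y | |y| ≤ (N : ℤ) ∧ ∃ i, a ≤ i ∧ i ≤ b ∧ (T ^ i) x = y}.ncard : ℕ) : ℝ)
        ≤ (k : ℝ) + ((Ex T κ k N).card : ℕ) := by
      exact_mod_cast h1
    linarith

end Pool.Agent.Results.MP_153093_nt.Returns
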